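import Pool.Agent.W973.SRR.Defs
import Pool.Agent.W414.CES.PVer

/-!
# The verifier for rationalizability is polynomial-time computable
-/

set_option autoImplicit false

namespace Pool.Agent.W757.SRR

open Pool.Agent.W973.SRR Pool.Agent.NPC

section

variable {α : Type} [TEnc α]

theorem poly_mem {β : Type} [TEnc β] {f : α → β} {l : α → List β}
    [inst : ∀ a, Decidable (f a ∈ l a)] (hf : NPC.Poly f) (hl : NPC.Poly l) :
    NPC.Poly (fun a => @decide (f a ∈ l a) (inst a)) := by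
  classical
  exact (NPC.Poly.decide_mem hf hl).congr fun a => by congr

theorem poly_neq {f g : α → ℕ} (hf : NPC.Poly f) (hg : NPC.Poly g) :
    NPC.Poly (fun a => decide (f a ≠ g a)) :=
  NPC.Poly.decide_not (p := fun a => f a = g a) (NPC.Poly.decide_eq hf hg)

theorem poly_pairTest {p q : α → ℕ × ℕ} (hp : NPC.Poly p) (hq : NPC.Poly q) :
    NPC.Poly (fun a => decide (p a = q a) ||
      (decide ((p a).1 = (q a).2 ∧ (p a).2 = (q a).1) ||
        (decide ((p a).1 ≠ (q a).1) && decide ((p a).1 ≠ (q a).2) && decide ((p a).2 ≠ (q a).1) &&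
          decide ((p a).2 ≠ (q a).2)))) := by
  have p1 := NPC.Poly.fst hp
  have p2 := NPC.Poly.snd hp
  have q1 := NPC.Poly.fst hq
  have q2 := NPC.Poly.snd hq
  refine NPC.Poly.or (NPC.Poly.decide_eq hp hq) (NPC.Poly.or ?_ ?_)
  · exact NPC.Poly.decide_and (p := fun a => (p a).1 = (q a).2) (q := fun a => (p a).2 = (q a).1)
      (NPC.Poly.decide_eq p1 q2) (NPC.Poly.decide_eq p2 q1)
  · exact NPC.Poly.and (NPC.Poly.and (NPC.Poly.and (poly_neq p1 q1) (poly_neq p1 q2))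
      (poly_neq p2 q1)) (poly_neq p2 q2)

theorem matB_poly {n : α → ℕ} {M : α → List (ℕ × ℕ)} (hn : NPC.Poly n) (hM : NPC.Poly M) :
    NPC.Poly (fun a => matB (n a) (M a)) := by
  unfold matB
  refine NPC.Poly.and ?_ ?_
  · refine NPC.Poly.all (p := fun (a : α) (p : ℕ × ℕ) =>
      decide (p.1 < n a) && decide (p.2 < n a) && decide (p.1 ≠ p.2)) hM ?_
    have a1 : NPC.Poly (fun q : α × (ℕ × ℕ) => q.2.1) := NPC.Poly.fst (NPC.Poly.snd NPC.Poly.id)
    have a2 : NPC.Poly (fun q : α × (ℕ × ℕ) => q.2.2) := NPC.Poly.snd (NPC.Poly.snd NPC.Poly.id)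
    have a3 : NPC.Poly (fun q : α × (ℕ × ℕ) => n q.1) := hn.comp (NPC.Poly.fst NPC.Poly.id)
    exact NPC.Poly.and (NPC.Poly.and (NPC.Poly.decide_lt a1 a3) (NPC.Poly.decide_lt a2 a3))
      (poly_neq a1 a2)
  · refine NPC.Poly.all (p := fun (a : α) (p : ℕ × ℕ) => (M a).all fun q => decide (p = q) ||
      (decide (p.1 = q.2 ∧ p.2 = q.1) ||
        (decide (p.1 ≠ q.1) && decide (p.1 ≠ q.2) && decide (p.2 ≠ q.1) && decide (p.2 ≠ q.2))))
      hM ?_
    refine NPC.Poly.all (p := fun (r : α × (ℕ × ℕ)) (q : ℕ × ℕ) => decide (r.2 = q) ||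
      (decide (r.2.1 = q.2 ∧ r.2.2 = q.1) ||
        (decide (r.2.1 ≠ q.1) && decide (r.2.1 ≠ q.2) && decide (r.2.2 ≠ q.1) &&
          decide (r.2.2 ≠ q.2)))) (hM.comp (NPC.Poly.fst NPC.Poly.id)) ?_
    exact poly_pairTest (NPC.Poly.snd (NPC.Poly.fst NPC.Poly.id)) (NPC.Poly.snd NPC.Poly.id)

theorem prefB_poly {n : α → ℕ} {P : α → List (List ℕ)} (hn : UPoly n) (hP : NPC.Poly P) :
    NPC.Poly (fun a => prefB (n a) (P a)) := by
  unfold prefB
  refine NPC.Poly.and (NPC.Poly.decide_eq (NPC.Poly.length hP) hn.toPoly) ?_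
  refine NPC.Poly.all (p := fun (x : α) (a : ℕ) =>
    decide (((P x).getD a []).length + 1 = n x) &&
      (List.range (n x)).all fun b => decide (b = a) || decide (b ∈ (P x).getD a []))
    hn.range ?_
  have b1 : NPC.Poly (fun q : α × ℕ => (P q.1).getD q.2 []) :=
    NPC.Poly.getD (hP.comp (NPC.Poly.fst NPC.Poly.id)) (NPC.Poly.snd NPC.Poly.id)
      (NPC.Poly.const [])
  refine NPC.Poly.and (NPC.Poly.decide_eq (NPC.Poly.succ (NPC.Poly.length b1))
    (hn.toPoly.comp (NPC.Poly.fst NPC.Poly.id))) ?_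
  refine NPC.Poly.all (p := fun (q : α × ℕ) (b : ℕ) => decide (b = q.2) ||
    decide (b ∈ (P q.1).getD q.2 [])) (hn.comp (NPC.Poly.fst NPC.Poly.id)).range ?_
  exact NPC.Poly.or (NPC.Poly.decide_eq (NPC.Poly.snd NPC.Poly.id)
    (NPC.Poly.snd (NPC.Poly.fst NPC.Poly.id)))
    (NPC.Poly.decide_mem (NPC.Poly.snd NPC.Poly.id) (b1.comp (NPC.Poly.fst NPC.Poly.id)))

theorem likB_poly {P : α → List (List ℕ)} {M : α → List (ℕ × ℕ)} {a b : α → ℕ}
    (hP : NPC.Poly P) (hM : NPC.Poly M) (ha : NPC.Poly a) (hb : NPC.Poly b) :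
    NPC.Poly (fun x => likB (P x) (M x) (a x) (b x)) := by
  unfold likB
  refine NPC.Poly.all (p := fun (x : α) (p : ℕ × ℕ) =>
    (decide (p.1 ≠ a x) ||
      decide (((P x).getD (a x) []).idxOf (b x) < ((P x).getD (a x) []).idxOf p.2)) &&
    (decide (p.2 ≠ a x) ||
      decide (((P x).getD (a x) []).idxOf (b x) < ((P x).getD (a x) []).idxOf p.1))) hM ?_
  have f : NPC.Poly (fun q : α × (ℕ × ℕ) => q.1) := NPC.Poly.fst NPC.Poly.id
  have s1 : NPC.Poly (fun q : α × (ℕ × ℕ) => q.2.1) := NPC.Poly.fst (NPC.Poly.snd NPC.Poly.id)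
  have s2 : NPC.Poly (fun q : α × (ℕ × ℕ) => q.2.2) := NPC.Poly.snd (NPC.Poly.snd NPC.Poly.id)
  have hl : NPC.Poly (fun x => (P x).getD (a x) []) :=
    NPC.Poly.getD hP ha (NPC.Poly.const [])
  have hl' := hl.comp f
  have ha' := ha.comp f
  have hb' := hb.comp f
  have i0 := W414.CES.idxOf hl' hb'
  exact NPC.Poly.and
    (NPC.Poly.or (poly_neq s1 ha') (NPC.Poly.decide_lt i0 (W414.CES.idxOf hl' s2)))
    (NPC.Poly.or (poly_neq s2 ha') (NPC.Poly.decide_lt i0 (W414.CES.idxOf hl' s1)))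

theorem stabB_poly {n : α → ℕ} {P : α → List (List ℕ)} {M : α → List (ℕ × ℕ)}
    (hn : UPoly n) (hP : NPC.Poly P) (hM : NPC.Poly M) :
    NPC.Poly (fun x => stabB (n x) (P x) (M x)) := by
  unfold stabB
  refine NPC.Poly.all (p := fun (x : α) (a : ℕ) => (List.range (n x)).all fun b =>
    decide (a = b) || decide ((a, b) ∈ M x) || decide ((b, a) ∈ M x) ||
      !(likB (P x) (M x) a b && likB (P x) (M x) b a)) hn.range ?_
  refine NPC.Poly.all (p := fun (q : α × ℕ) (b : ℕ) =>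
    decide (q.2 = b) || decide ((q.2, b) ∈ M q.1) || decide ((b, q.2) ∈ M q.1) ||
      !(likB (P q.1) (M q.1) q.2 b && likB (P q.1) (M q.1) b q.2))
    (hn.comp (NPC.Poly.fst NPC.Poly.id)).range ?_
  have a1 : NPC.Poly (fun q : (α × ℕ) × ℕ => q.1.1) := NPC.Poly.fst (NPC.Poly.fst NPC.Poly.id)
  have a2 : NPC.Poly (fun q : (α × ℕ) × ℕ => q.1.2) := NPC.Poly.snd (NPC.Poly.fst NPC.Poly.id)
  have a3 : NPC.Poly (fun q : (α × ℕ) × ℕ => q.2) := NPC.Poly.snd NPC.Poly.id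
  have hM' := hM.comp a1
  have hP' := hP.comp a1
  exact NPC.Poly.or (NPC.Poly.or (NPC.Poly.or (NPC.Poly.decide_eq a2 a3)
    (poly_mem (NPC.Poly.pair a2 a3) hM'))
    (poly_mem (NPC.Poly.pair a3 a2) hM'))
    (NPC.Poly.not (NPC.Poly.and (likB_poly hP' hM' a2 a3) (likB_poly hP' hM' a3 a2)))

end

theorem pver : S_PVER := by
  unfold S_PVER verB
  have h11 : NPC.Poly (fun q : Inst × List (List ℕ) => q.1.1) :=
    NPC.Poly.fst (NPC.Poly.fst NPC.Poly.id)
  have h12 : NPC.Poly (fun q : Inst × List (List ℕ) => q.1.2) :=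
    NPC.Poly.snd (NPC.Poly.fst NPC.Poly.id)
  have h2 : NPC.Poly (fun q : Inst × List (List ℕ) => q.2) := NPC.Poly.snd NPC.Poly.id
  have hn : UPoly (fun q : Inst × List (List ℕ) => q.1.1.length) := UPoly.length h11
  refine NPC.Poly.and (NPC.Poly.and ?_ (prefB_poly hn h2)) ?_
  · exact NPC.Poly.all (p := fun (q : Inst × List (List ℕ)) (M : List (ℕ × ℕ)) =>
      matB q.1.1.length M) h12
      (matB_poly (hn.toPoly.comp (NPC.Poly.fst NPC.Poly.id)) (NPC.Poly.snd NPC.Poly.id))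
  · exact NPC.Poly.all (p := fun (q : Inst × List (List ℕ)) (M : List (ℕ × ℕ)) =>
      stabB q.1.1.length q.2 M) h12
      (stabB_poly (hn.comp (NPC.Poly.fst NPC.Poly.id)) (h2.comp (NPC.Poly.fst NPC.Poly.id))
        (NPC.Poly.snd NPC.Poly.id))

end Pool.Agent.W757.SRR
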